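import Mathlib

/-!
# Automorphisms of the tree of Young–Fibonacci paths (MP_ac28de, Q1)

The automorphisms of `T` correspond to the arbitrary functions from the set of the vertices of `T`
whose last word is `2^k 1` for some `k` to `{0, 1}`.
-/

namespace Pool.Agent.Results.MP_ac28de_co.TreeAutomorphisms

/-- Words over the alphabet `{1, 2}`: `false` is the letter `1` and `true` is the letter `2`. -/
abbrev Word : Type := List Bool

/-- The word `y` covers the word `x` in the Young–Fibonacci lattice: `x` is obtained from `y` by
deleting the leftmost letter `1` of `y`, or by replacing a letter `2` of `y`, to the left of which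
there are only letters `2`, by `1`. -/
def Covers (x y : Word) : Prop :=
  ∃ (k : ℕ) (w : Word),
    (y = List.replicate k true ++ false :: w ∧ x = List.replicate k true ++ w) ∨
    (y = List.replicate k true ++ true :: w ∧ x = List.replicate k true ++ false :: w)

/-- `[xₙ, …, x₁, x₀]` is a saturated chain `∅ = x₀ ⋖ x₁ ⋖ … ⋖ xₙ`, written with the last word
first. -/
def IsPath : List Word → Prop
  | [] => False
  | [x] => x = []
  | y :: x :: l => Covers x y ∧ IsPath (x :: l)

/-- The vertices of `T`. -/
abbrev Vertex : Type := {l : List Word // IsPath l}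

/-- The tree `T`: a chain is adjacent to the chain obtained by deleting its last word. -/
def T : SimpleGraph Vertex where
  Adj p q := (∃ y, q.1 = y :: p.1) ∨ (∃ y, p.1 = y :: q.1)
  symm := ⟨fun _ _ h => h.symm⟩
  loopless := ⟨by
    rintro p (⟨y, h⟩ | ⟨y, h⟩) <;>
    · have := congrArg List.length h
      simp at this⟩

/-- The involution on reversed words which exchanges `11u` and `2u` and fixes all other words. -/
def tog : Word → Word
  | true :: u => false :: false :: u
  | false :: false :: u => true :: u
  | u => u

/-- The involution on words which exchanges `u11` and `u2` for every word `u` and fixes all other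
words. -/
def toggle (x : Word) : Word := (tog x.reverse).reverse

/-- `l` is a vertex of `T` whose last word is `2^k 1` for some `k ≥ 0`. -/
def IsBranch (l : List Word) : Prop :=
  IsPath l ∧ ∃ k : ℕ, l.head? = some (List.replicate k true ++ [false])

/-- A portrait is an arbitrary choice of a bit for every vertex of `T` whose last word is `2^k 1` for
some `k ≥ 0` (the function is `false` elsewhere). -/
abbrev Portrait : Type := {ε : List Word → Bool // ∀ l, ε l = true → IsBranch l}

/-- The action of a portrait `ε`: the image `(y₀, …, yₙ)` of `(x₀, …, xₙ)` is given by `y₀ = x₀`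
and, for `i < n`, `yᵢ₊₁ = toggle xᵢ₊₁` if `yᵢ ≠ xᵢ` or `ε (x₀, …, xᵢ)` is true, and
`yᵢ₊₁ = xᵢ₊₁` otherwise. -/
def act (ε : List Word → Bool) : List Word → List Word
  | [] => []
  | [x] => [x]
  | x' :: x :: l =>
    (if (act ε (x :: l)).head? ≠ some x ∨ ε (x :: l) = true then toggle x' else x') ::
      act ε (x :: l)

/-! ### Words -/

lemma toggle_11 (u : Word) : toggle (u ++ [false, false]) = u ++ [true] := by
  simp [toggle, tog]

lemma toggle_2 (u : Word) : toggle (u ++ [true]) = u ++ [false, false] := by
  simp [toggle, tog]

lemma toggle_21 (u : Word) : toggle (u ++ [true, false]) = u ++ [true, false] := by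
  simp [toggle, tog]

lemma word_cases (x : Word) : x = [] ∨ x = [false] ∨ (∃ u, x = u ++ [true]) ∨
    (∃ u, x = u ++ [false, false]) ∨ (∃ u, x = u ++ [true, false]) := by
  have h : ∀ y : Word, y = [] ∨ y = [false] ∨ (∃ u, y = true :: u) ∨
      (∃ u, y = false :: false :: u) ∨ (∃ u, y = false :: true :: u) := by
    rintro (_ | ⟨a, _ | ⟨b, u⟩⟩)
    · exact Or.inl rfl
    · cases a
      · exact Or.inr (Or.inl rfl)
      · exact Or.inr (Or.inr (Or.inl ⟨_, rfl⟩))
    · cases a
      · cases b
        · exact Or.inr (Or.inr (Or.inr (Or.inl ⟨_, rfl⟩)))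
        · exact Or.inr (Or.inr (Or.inr (Or.inr ⟨_, rfl⟩)))
      · exact Or.inr (Or.inr (Or.inl ⟨_, rfl⟩))
  rcases h x.reverse with h | h | ⟨u, h⟩ | ⟨u, h⟩ | ⟨u, h⟩
  · exact Or.inl (by simpa using h)
  · refine Or.inr (Or.inl ?_)
    have := congrArg List.reverse h
    simpa using this
  · refine Or.inr (Or.inr (Or.inl ⟨u.reverse, ?_⟩))
    have := congrArg List.reverse h
    simpa using this
  · refine Or.inr (Or.inr (Or.inr (Or.inl ⟨u.reverse, ?_⟩)))
    have := congrArg List.reverse h
    simpa using this
  · refine Or.inr (Or.inr (Or.inr (Or.inr ⟨u.reverse, ?_⟩)))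
    have := congrArg List.reverse h
    simpa using this

lemma toggle_toggle (x : Word) : toggle (toggle x) = x := by
  rcases word_cases x with rfl | rfl | ⟨u, rfl⟩ | ⟨u, rfl⟩ | ⟨u, rfl⟩
  · rfl
  · rfl
  · rw [toggle_2, toggle_11]
  · rw [toggle_11, toggle_2]
  · rw [toggle_21, toggle_21]

lemma toggle_inj {x y : Word} (h : toggle x = toggle y) : x = y := by
  rw [← toggle_toggle x, h, toggle_toggle]

/-- Inductive form of the cover relation. -/
inductive Cov : Word → Word → Prop
  | ins (x : Word) : Cov x (false :: x)
  | rep (w : Word) : Cov (false :: w) (true :: w)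
  | two (x y : Word) : Cov x y → Cov (true :: x) (true :: y)

lemma covers_iff (x y : Word) : Covers x y ↔ Cov x y := by
  constructor
  · rintro ⟨k, w, ⟨rfl, rfl⟩ | ⟨rfl, rfl⟩⟩
    · induction k with
      | zero => exact Cov.ins _
      | succ k ih => exact Cov.two _ _ ih
    · induction k with
      | zero => exact Cov.rep _
      | succ k ih => exact Cov.two _ _ ih
  · intro h
    induction h with
    | ins x => exact ⟨0, x, Or.inl ⟨rfl, rfl⟩⟩
    | rep w => exact ⟨0, w, Or.inr ⟨rfl, rfl⟩⟩
    | two x y _ ih =>
      obtain ⟨k, w, ⟨rfl, rfl⟩ | ⟨rfl, rfl⟩⟩ := ih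
      · exact ⟨k + 1, w, Or.inl ⟨rfl, rfl⟩⟩
      · exact ⟨k + 1, w, Or.inr ⟨rfl, rfl⟩⟩

/-- Covers of `u11`. -/
lemma cov_11 (u x' : Word) (h : Cov (u ++ [false, false]) x') :
    (∃ v, x' = v ++ [false, false] ∧ Cov (u ++ [true]) (v ++ [true])) ∨
    (∃ v, x' = v ++ [true, false] ∧ Cov (u ++ [true]) x') := by
  induction u generalizing x' with
  | nil =>
    cases h with
    | ins => exact Or.inl ⟨[false], rfl, Cov.ins _⟩
    | rep => exact Or.inr ⟨[], rfl, Cov.two _ _ (Cov.ins _)⟩
  | cons a u ih =>
    cases h with
    | ins => exact Or.inl ⟨false :: a :: u, rfl, Cov.ins _⟩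
    | rep => exact Or.inl ⟨true :: u, rfl, Cov.rep _⟩
    | two _ y hy =>
      rcases ih y hy with ⟨v, rfl, hv⟩ | ⟨v, rfl, hv⟩
      · exact Or.inl ⟨true :: v, rfl, Cov.two _ _ hv⟩
      · exact Or.inr ⟨true :: v, rfl, Cov.two _ _ hv⟩

/-- Covers of `u2`. -/
lemma cov_2 (u x' : Word) (h : Cov (u ++ [true]) x') :
    (∃ v, x' = v ++ [true] ∧ Cov (u ++ [false, false]) (v ++ [false, false])) ∨
    (∃ v, x' = v ++ [true, false] ∧ Cov (u ++ [false, false]) x') := by
  induction u generalizing x' with
  | nil =>
    cases h with
    | ins => exact Or.inl ⟨[false], rfl, Cov.ins _⟩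
    | two _ y hy =>
      cases hy with
      | ins => exact Or.inr ⟨[], rfl, Cov.rep _⟩
  | cons a u ih =>
    cases h with
    | ins => exact Or.inl ⟨false :: a :: u, rfl, Cov.ins _⟩
    | rep => exact Or.inl ⟨true :: u, rfl, Cov.rep _⟩
    | two _ y hy =>
      rcases ih y hy with ⟨v, rfl, hv⟩ | ⟨v, rfl, hv⟩
      · exact Or.inl ⟨true :: v, rfl, Cov.two _ _ hv⟩
      · exact Or.inr ⟨true :: v, rfl, Cov.two _ _ hv⟩

lemma cov_toggle {x x' : Word} (h : Cov x x') (hx : toggle x ≠ x) :
    Cov (toggle x) (toggle x') := by
  rcases word_cases x with rfl | rfl | ⟨u, rfl⟩ | ⟨u, rfl⟩ | ⟨u, rfl⟩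
  · exact absurd rfl hx
  · exact absurd rfl hx
  · rw [toggle_2]
    rcases cov_2 u x' h with ⟨v, rfl, hv⟩ | ⟨v, rfl, hv⟩
    · rw [toggle_2]; exact hv
    · rw [toggle_21]; exact hv
  · rw [toggle_11]
    rcases cov_11 u x' h with ⟨v, rfl, hv⟩ | ⟨v, rfl, hv⟩
    · rw [toggle_11]; exact hv
    · rw [toggle_21]; exact hv
  · exact absurd (toggle_21 u) hx

/-- The word `2^k 1`. -/
def br (k : ℕ) : Word := List.replicate k true ++ [false]

lemma br_succ (k : ℕ) : br (k + 1) = true :: br k := rfl

lemma toggle_br (k : ℕ) : toggle (br k) = br k := by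
  cases k with
  | zero => rfl
  | succ k =>
    have : br (k + 1) = List.replicate k true ++ [true, false] := by
      unfold br
      rw [List.replicate_succ']
      simp
    rw [this, toggle_21]

lemma cov_ne_nil {x y : Word} (h : Cov x y) : y ≠ [] := by
  cases h <;> simp

/-- Covers of `2^k 1`. -/
lemma cov_br (k : ℕ) (x' : Word) (h : Cov (br k) x') :
    x' = List.replicate k true ++ [false, false] ∨ x' = List.replicate k true ++ [true] ∨
    toggle x' = x' := by
  induction k generalizing x' with
  | zero =>
    cases h with
    | ins => exact Or.inl rfl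
    | rep => exact Or.inr (Or.inl rfl)
  | succ k ih =>
    rw [br_succ] at h
    cases h with
    | ins =>
      refine Or.inr (Or.inr ?_)
      rw [← br_succ]
      have : false :: br (k + 1) = (false :: List.replicate k true) ++ [true, false] := by
        unfold br
        rw [List.replicate_succ']
        simp
      rw [this, toggle_21]
    | two _ y hy =>
      rcases ih y hy with rfl | rfl | hy2
      · exact Or.inl rfl
      · exact Or.inr (Or.inl rfl)
      · refine Or.inr (Or.inr ?_)
        rcases word_cases y with rfl | rfl | ⟨u, rfl⟩ | ⟨u, rfl⟩ | ⟨u, rfl⟩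
        · exact absurd rfl (cov_ne_nil hy)
        · rfl
        · rw [toggle_2] at hy2
          have := congrArg List.length hy2
          simp at this
        · rw [toggle_11] at hy2
          have := congrArg List.length hy2
          simp at this
        · exact toggle_21 (true :: u)

lemma cov_br_11 (k : ℕ) : Cov (br k) (List.replicate k true ++ [false, false]) := by
  induction k with
  | zero => exact Cov.ins _
  | succ k ih => exact Cov.two _ _ ih

lemma cov_br_2 (k : ℕ) : Cov (br k) (List.replicate k true ++ [true]) := by
  induction k with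
  | zero => exact Cov.rep _
  | succ k ih => exact Cov.two _ _ ih

lemma cov_br_toggle {k : ℕ} {x' : Word} (h : Cov (br k) x') : Cov (br k) (toggle x') := by
  rcases cov_br k x' h with rfl | rfl | h1
  · rw [toggle_11]; exact cov_br_2 k
  · rw [toggle_2]; exact cov_br_11 k
  · rw [h1]; exact h

/-- The number of covers of a word. -/
def deg : Word → ℕ
  | [] => 1
  | false :: _ => 2
  | true :: w => deg w + 1

lemma deg_pos (x : Word) : 1 ≤ deg x := by
  rcases x with _ | ⟨a, w⟩
  · exact le_rfl
  · cases a
    · exact one_le_two
    · exact Nat.le_add_left 1 _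

lemma deg_ge_two {x : Word} (h : x ≠ []) : 2 ≤ deg x := by
  rcases x with _ | ⟨a, w⟩
  · exact absurd rfl h
  · cases a
    · exact le_rfl
    · have := deg_pos w
      change 2 ≤ deg w + 1
      omega

/-- Siblings are distinguished by their degrees, with one exception. -/
lemma sib {x y z : Word} (hy : Cov x y) (hz : Cov x z) (hd : deg y = deg z) :
    y = z ∨ (z = toggle y ∧ ∃ k, x = br k) := by
  induction hy generalizing z with
  | ins x =>
    cases hz with
    | ins => exact Or.inl rfl
    | rep w =>
      right
      change 2 = deg w + 1 at hd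
      have hw : w = [] := by
        by_contra hne
        have := deg_ge_two hne
        omega
      subst hw
      exact ⟨rfl, 0, rfl⟩
    | two x z h2 =>
      exfalso
      change 2 = deg z + 1 at hd
      have := deg_ge_two (cov_ne_nil h2)
      omega
  | rep w =>
    cases hz with
    | ins =>
      right
      change deg w + 1 = 2 at hd
      have hw : w = [] := by
        by_contra hne
        have := deg_ge_two hne
        omega
      subst hw
      exact ⟨rfl, 0, rfl⟩
    | rep => exact Or.inl rfl
  | two x y hxy ih =>
    cases hz with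
    | ins =>
      exfalso
      change deg y + 1 = 2 at hd
      have := deg_ge_two (cov_ne_nil hxy)
      omega
    | two _ z h2 =>
      have hd' : deg y = deg z := by
        change deg y + 1 = deg z + 1 at hd
        omega
      rcases ih h2 hd' with rfl | ⟨h3, k, hk⟩
      · exact Or.inl rfl
      · right
        refine ⟨?_, k + 1, by rw [hk, br_succ]⟩
        rw [h3]
        rcases word_cases y with rfl | rfl | ⟨u, rfl⟩ | ⟨u, rfl⟩ | ⟨u, rfl⟩
        · exact absurd rfl (cov_ne_nil hxy)
        · rfl
        · rw [toggle_2]; exact (toggle_2 (true :: u)).symm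
        · rw [toggle_11]; exact (toggle_11 (true :: u)).symm
        · rw [toggle_21]; exact (toggle_21 (true :: u)).symm

lemma deg_twin (u : Word) : deg (u ++ [false, false]) = deg (u ++ [true]) := by
  induction u with
  | nil => rfl
  | cons a u ih =>
    cases a
    · rfl
    · change deg (u ++ [false, false]) + 1 = deg (u ++ [true]) + 1
      rw [ih]

lemma deg_toggle (x : Word) : deg (toggle x) = deg x := by
  rcases word_cases x with rfl | rfl | ⟨u, rfl⟩ | ⟨u, rfl⟩ | ⟨u, rfl⟩
  · rfl
  · rfl
  · rw [toggle_2, deg_twin]
  · rw [toggle_11, deg_twin]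
  · rw [toggle_21]

/-- The set of covers. -/
lemma covers_ncard (x : Word) : {y | Cov x y}.Finite ∧ {y | Cov x y}.ncard = deg x := by
  induction x with
  | nil =>
    have : {y | Cov [] y} = {[false]} := by
      ext y
      simp only [Set.mem_ofPred_eq, Set.mem_singleton_iff]
      constructor
      · intro h; cases h; rfl
      · rintro rfl; exact Cov.ins _
    rw [this]
    exact ⟨Set.finite_singleton _, Set.ncard_singleton _⟩
  | cons a w ih =>
    cases a
    · have : {y | Cov (false :: w) y} = {false :: false :: w, true :: w} := by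
        ext y
        simp only [Set.mem_ofPred_eq, Set.mem_insert_iff, Set.mem_singleton_iff]
        constructor
        · intro h
          cases h with
          | ins => exact Or.inl rfl
          | rep => exact Or.inr rfl
        · rintro (rfl | rfl)
          · exact Cov.ins _
          · exact Cov.rep _
      rw [this]
      exact ⟨Set.toFinite _, Set.ncard_pair (by simp)⟩
    · have : {y | Cov (true :: w) y} = insert (false :: true :: w)
          ((fun y => true :: y) '' {y | Cov w y}) := by
        ext y
        simp only [Set.mem_ofPred_eq, Set.mem_insert_iff, Set.mem_image]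
        constructor
        · intro h
          cases h with
          | ins => exact Or.inl rfl
          | two _ y hy => exact Or.inr ⟨y, hy, rfl⟩
        · rintro (rfl | ⟨y, hy, rfl⟩)
          · exact Cov.ins _
          · exact Cov.two _ _ hy
      rw [this]
      have hfin : ((fun y : Word => true :: y) '' {y | Cov w y}).Finite := ih.1.image _
      refine ⟨hfin.insert _, ?_⟩
      rw [Set.ncard_insert_of_notMem (by simp) hfin,
        Set.ncard_image_of_injective _ (fun a b h => (List.cons.inj h).2), ih.2]
      rfl

/-! ### The action of a portrait -/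

lemma act_cons (ε : List Word → Bool) (x' x : Word) (l : List Word) :
    act ε (x' :: x :: l) =
      (if (act ε (x :: l)).head? ≠ some x ∨ ε (x :: l) = true then toggle x' else x') ::
        act ε (x :: l) := rfl

section portrait

variable {ε : List Word → Bool} (hε : ∀ l, ε l = true → IsBranch l)
include hε

lemma act_path (l : List Word) : ∀ x, IsPath (x :: l) → ∃ y m, act ε (x :: l) = y :: m ∧
    IsPath (y :: m) ∧ (y = x ∨ y = toggle x) := by
  induction l with
  | nil =>
    intro x hx
    exact ⟨x, [], rfl, hx, Or.inl rfl⟩
  | cons x0 l0 ih =>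
    intro x hx
    obtain ⟨hc, hp⟩ := hx
    obtain ⟨y0, m0, h1, h2, h3⟩ := ih x0 hp
    rw [act_cons, h1]
    refine ⟨_, _, rfl, ⟨?_, h2⟩, ?_⟩
    · rw [covers_iff] at hc ⊢
      simp only [List.head?_cons, ne_eq, Option.some.injEq]
      by_cases h4 : y0 = x0
      · subst h4
        by_cases h5 : ε (y0 :: l0) = true
        · rw [if_pos (Or.inr h5)]
          obtain ⟨-, k, hk⟩ := hε _ h5
          simp only [List.head?_cons, Option.some.injEq] at hk
          subst hk
          exact cov_br_toggle (k := k) hc
        · rw [if_neg (by simp [h5])]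
          exact hc
      · rw [if_pos (Or.inl h4)]
        rcases h3 with h3 | h3
        · exact absurd h3 h4
        · rw [h3] at h4 ⊢
          exact cov_toggle hc h4
    · split_ifs
      · exact Or.inr rfl
      · exact Or.inl rfl

omit hε in
lemma act_inj (n : ℕ) : ∀ l l' : List Word, l.length = n → IsPath l → IsPath l' →
    act ε l = act ε l' → l = l' := by
  have hlen : ∀ l : List Word, (act ε l).length = l.length := by
    intro l
    induction l with
    | nil => rfl
    | cons x l ih =>
      cases l with
      | nil => rfl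
      | cons y l =>
        rw [act_cons, List.length_cons, ih]
        rfl
  induction n with
  | zero =>
    intro l l' hl hp
    rw [List.length_eq_zero_iff] at hl
    subst hl
    exact hp.elim
  | succ n ih =>
    intro l l' hl hp hp' he
    have hl' : l'.length = n + 1 := by rw [← hlen l', ← he, hlen, hl]
    rcases l with _ | ⟨x, _ | ⟨y, l⟩⟩
    · exact hp.elim
    · rcases l' with _ | ⟨x', _ | ⟨y', l'⟩⟩
      · exact hp'.elim
      · exact he
      · exfalso
        simp at hl hl'
        omega
    · rcases l' with _ | ⟨x', _ | ⟨y', l'⟩⟩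
      · exact hp'.elim
      · exfalso
        simp at hl hl'
        omega
      · rw [act_cons, act_cons] at he
        obtain ⟨h1, h2⟩ := List.cons.inj he
        have h3 := ih (y :: l) (y' :: l') (by simpa using hl) hp.2 hp'.2 h2
        obtain ⟨rfl, rfl⟩ := List.cons.inj h3
        have h4 : x = x' := by
          split_ifs at h1
          · exact toggle_inj h1
          · exact h1
        rw [h4]

lemma act_surj (m : List Word) : ∀ y, IsPath (y :: m) → ∃ x l, IsPath (x :: l) ∧
    act ε (x :: l) = y :: m := by
  induction m with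
  | nil =>
    intro y hy
    exact ⟨y, [], hy, rfl⟩
  | cons y0 m0 ih =>
    intro y hy
    obtain ⟨hc, hp⟩ := hy
    obtain ⟨x0, l0, h1, h2⟩ := ih y0 hp
    obtain ⟨y1, m1, h3, -, h4⟩ := act_path hε l0 x0 h1
    rw [h2] at h3
    obtain ⟨rfl, rfl⟩ := List.cons.inj h3
    rw [covers_iff] at hc
    by_cases hcond : y0 ≠ x0 ∨ ε (x0 :: l0) = true
    · refine ⟨toggle y, x0 :: l0, ⟨?_, h1⟩, ?_⟩
      · rw [covers_iff]
        by_cases h5 : y0 = x0
        · subst h5
          have h6 := hcond.resolve_left (fun h => h rfl)
          obtain ⟨-, k, hk⟩ := hε _ h6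
          simp only [List.head?_cons, Option.some.injEq] at hk
          subst hk
          exact cov_br_toggle (k := k) hc
        · have h6 := h4.resolve_left h5
          have h7 : x0 = toggle y0 := by rw [h6, toggle_toggle]
          rw [h7]
          exact cov_toggle hc (by rw [← h7]; exact fun h => h5 h.symm)
      · rw [act_cons, h2]
        rw [if_pos (by simpa using hcond), toggle_toggle]
    · refine ⟨y, x0 :: l0, ⟨?_, h1⟩, ?_⟩
      · push Not at hcond
        rw [covers_iff, ← hcond.1]
        exact hc
      · rw [act_cons, h2]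
        rw [if_neg (by simpa using hcond)]

end portrait

lemma vertex_form (p : Vertex) : ∃ x l, p.1 = x :: l := by
  obtain ⟨_ | ⟨x, l⟩, h⟩ := p
  · exact h.elim
  · exact ⟨x, l, rfl⟩

/-- The action on the vertices. -/
def actV (ε : Portrait) (p : Vertex) : Vertex :=
  ⟨act ε.1 p.1, by
    obtain ⟨x, l, h⟩ := vertex_form p
    obtain ⟨y, m, h1, h2, -⟩ := act_path ε.2 l x (h ▸ p.2)
    rw [h, h1]
    exact h2⟩

lemma actV_bij (ε : Portrait) : Function.Bijective (actV ε) := by
  constructor
  · intro p q h
    exact Subtype.ext (act_inj (ε := ε.1) _ p.1 q.1 rfl p.2 q.2 (congrArg Subtype.val h))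
  · intro q
    obtain ⟨y, m, h⟩ := vertex_form q
    obtain ⟨x, l, h1, h2⟩ := act_surj ε.2 m y (h ▸ q.2)
    exact ⟨⟨x :: l, h1⟩, Subtype.ext (h2.trans h.symm)⟩

lemma act_child (ε : Portrait) {p q : Vertex} {y : Word} (h : q.1 = y :: p.1) :
    ∃ z, (actV ε q).1 = z :: (actV ε p).1 := by
  obtain ⟨x, l, hp⟩ := vertex_form p
  change ∃ z, act ε.1 q.1 = z :: act ε.1 p.1
  rw [h, hp, act_cons]
  exact ⟨_, rfl⟩

lemma child_act (ε : Portrait) {p q : Vertex} {z : Word}
    (h : (actV ε q).1 = z :: (actV ε p).1) : ∃ y, q.1 = y :: p.1 := by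
  obtain ⟨x, l, hq⟩ := vertex_form q
  rcases l with _ | ⟨x0, l⟩
  · exfalso
    change act ε.1 q.1 = z :: act ε.1 p.1 at h
    rw [hq] at h
    obtain ⟨y, m, hp⟩ := vertex_form (actV ε p)
    change act ε.1 p.1 = _ at hp
    rw [hp] at h
    have := congrArg List.length h
    simp [act] at this
  · have hpath : IsPath (x0 :: l) := by
      have := q.2
      rw [hq] at this
      exact this.2
    refine ⟨x, ?_⟩
    change act ε.1 q.1 = z :: act ε.1 p.1 at h
    rw [hq, act_cons] at h
    have h2 := (List.cons.inj h).2
    have := act_inj (ε := ε.1) _ (x0 :: l) p.1 rfl hpath p.2 h2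
    rw [hq, this]

/-- The automorphism given by a portrait. -/
noncomputable def autOf (ε : Portrait) : T ≃g T where
  toEquiv := Equiv.ofBijective (actV ε) (actV_bij ε)
  map_rel_iff' := by
    intro p q
    constructor
    · rintro (⟨y, h⟩ | ⟨y, h⟩)
      · exact Or.inl (child_act ε h)
      · exact Or.inr (child_act ε h)
    · rintro (⟨y, h⟩ | ⟨y, h⟩)
      · exact Or.inl (act_child ε h)
      · exact Or.inr (act_child ε h)

lemma autOf_apply (ε : Portrait) (p : Vertex) : (autOf ε p).1 = act ε.1 p.1 := rfl

/-! ### All automorphisms -/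

/-- The number of neighbours of a vertex. -/
lemma ncard_nbr (p : Vertex) {x : Word} {l : List Word} (hp : p.1 = x :: l) :
    (T.neighborSet p).ncard = deg x + (if l = [] then 0 else 1) := by
  classical
  have hpath : IsPath (x :: l) := hp ▸ p.2
  have hchild : {q : Vertex | ∃ y, q.1 = y :: p.1}.Finite ∧
      {q : Vertex | ∃ y, q.1 = y :: p.1}.ncard = deg x := by
    have hinj : Set.InjOn (fun q : Vertex => q.1.head?) {q : Vertex | ∃ y, q.1 = y :: p.1} := by
      rintro q ⟨y, hy⟩ r ⟨z, hz⟩ h
      simp only at h
      rw [hy, hz] at h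
      simp only [List.head?_cons, Option.some.injEq] at h
      exact Subtype.ext (by rw [hy, hz, h])
    have himg : (fun q : Vertex => q.1.head?) '' {q : Vertex | ∃ y, q.1 = y :: p.1} =
        some '' {y | Cov x y} := by
      ext o
      constructor
      · rintro ⟨q, ⟨y, hy⟩, rfl⟩
        refine ⟨y, ?_, by simp only; rw [hy]; rfl⟩
        have := q.2
        rw [hy, hp] at this
        exact (covers_iff _ _).1 this.1
      · rintro ⟨y, hy, rfl⟩
        refine ⟨⟨y :: x :: l, (covers_iff _ _).2 hy, hpath⟩, ⟨y, ?_⟩, rfl⟩
        rw [hp]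
    have h1 := covers_ncard x
    have hfin : (some '' {y | Cov x y}).Finite := h1.1.image _
    constructor
    · rw [← himg] at hfin
      exact Set.Finite.of_finite_image hfin hinj
    · rw [← hinj.ncard_image, himg,
        Set.ncard_image_of_injective _ (Option.some_injective _), h1.2]
  rcases l with _ | ⟨x0, l0⟩
  · have : T.neighborSet p = {q : Vertex | ∃ y, q.1 = y :: p.1} := by
      ext q
      constructor
      · rintro (h | ⟨y, h⟩)
        · exact h
        · exfalso
          obtain ⟨z, m, hq⟩ := vertex_form q
          rw [hp, hq] at h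
          simp at h
      · intro h
        exact Or.inl h
    rw [this, hchild.2]
    simp
  · have hpar : IsPath (x0 :: l0) := hpath.2
    have : T.neighborSet p = insert (⟨x0 :: l0, hpar⟩ : Vertex)
        {q : Vertex | ∃ y, q.1 = y :: p.1} := by
      ext q
      constructor
      · rintro (h | ⟨y, h⟩)
        · exact Or.inr h
        · left
          rw [hp] at h
          exact Subtype.ext (List.cons.inj h).2.symm
      · rintro (h | h)
        · right
          refine ⟨x, ?_⟩
          rw [hp, h]
        · exact Or.inl h
    rw [this, Set.ncard_insert_of_notMem _ hchild.1, hchild.2]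
    · simp
    · rintro ⟨y, hy⟩
      rw [hp] at hy
      have := congrArg List.length hy
      simp at this

section aut

variable (α : T ≃g T)

lemma nbr_pres (p : Vertex) : (T.neighborSet (α p)).ncard = (T.neighborSet p).ncard := by
  have : T.neighborSet (α p) = α '' T.neighborSet p := by
    ext q
    constructor
    · intro h
      refine ⟨α.symm q, ?_, by simp⟩
      have : T.Adj (α p) (α (α.symm q)) := by simpa using h
      exact α.map_rel_iff.1 this
    · rintro ⟨r, hr, rfl⟩
      exact α.map_rel_iff.2 hr
  rw [this, Set.ncard_image_of_injective _ α.injective]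

lemma level (n : ℕ) : ∀ p : Vertex, p.1.length = n + 1 →
    (α p).1.length = n + 1 ∧ ∀ (q : Vertex) (y : Word), p.1 = y :: q.1 →
      ∃ z, (α p).1 = z :: (α q).1 := by
  induction n with
  | zero =>
    intro p hp
    obtain ⟨x, l, hx⟩ := vertex_form p
    have hl : l = [] := by
      rw [hx] at hp
      simpa using hp
    subst hl
    have hx0 : x = [] := by
      have := p.2
      rw [hx] at this
      exact this
    subst hx0
    have h1 := ncard_nbr p hx
    have h2 := nbr_pres α p
    obtain ⟨y, m, hy⟩ := vertex_form (α p)
    have h3 := ncard_nbr (α p) hy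
    rw [h2, h1] at h3
    have hm : m = [] := by
      by_contra hne
      rw [if_neg hne, if_pos rfl] at h3
      have := deg_pos y
      change 1 + 0 = _ at h3
      omega
    refine ⟨by rw [hy, hm]; rfl, ?_⟩
    intro q z hq
    exfalso
    obtain ⟨z', m', hq'⟩ := vertex_form q
    rw [hx, hq'] at hq
    simp at hq
  | succ n ih =>
    intro p hp
    obtain ⟨x, l, hx⟩ := vertex_form p
    rcases l with _ | ⟨x0, l0⟩
    · exfalso
      rw [hx] at hp
      simp at hp
    · have hpar : IsPath (x0 :: l0) := by
        have := p.2
        rw [hx] at this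
        exact this.2
      set q : Vertex := ⟨x0 :: l0, hpar⟩ with hq
      have hpq : p.1 = x :: q.1 := hx
      have hqlen : q.1.length = n + 1 := by
        rw [hpq] at hp
        simpa using hp
      obtain ⟨h1, h2⟩ := ih q hqlen
      have hadj : T.Adj (α q) (α p) := α.map_rel_iff.2 (Or.inl ⟨x, hpq⟩)
      have key : ∃ z, (α p).1 = z :: (α q).1 := by
        rcases hadj with h | ⟨z, hz⟩
        · exact h
        · exfalso
          obtain ⟨w, m, hw⟩ := vertex_form (α p)
          rcases l0 with _ | ⟨x1, l1⟩
          · have : (α q).1.length = 1 := by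
              rw [h1]
              simp [hq] at hqlen
              omega
            rw [hz, hw] at this
            simp at this
          · have hpar' : IsPath (x1 :: l1) := hpar.2
            set r : Vertex := ⟨x1 :: l1, hpar'⟩ with hr
            obtain ⟨z', hz'⟩ := h2 r x0 rfl
            rw [hz] at hz'
            have h3 : α p = α r := Subtype.ext (List.cons.inj hz').2
            have h4 : p = r := α.injective h3
            have h5 : p.1.length = r.1.length := congrArg (fun v : Vertex => v.1.length) h4
            rw [hpq, hq, hr] at h5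
            simp at h5
            omega
      obtain ⟨z, hz⟩ := key
      refine ⟨by rw [hz, List.length_cons, h1], ?_⟩
      intro q' y hq'
      have : q' = q := by
        rw [hpq] at hq'
        exact Subtype.ext (List.cons.inj hq').2.symm
      rw [this]
      exact ⟨z, hz⟩

lemma child_map {p q : Vertex} {y : Word} (h : p.1 = y :: q.1) : ∃ z, (α p).1 = z :: (α q).1 := by
  obtain ⟨x, l, hx⟩ := vertex_form p
  exact (level α l.length p (by rw [hx]; rfl)).2 q y h

lemma len_map (p : Vertex) : (α p).1.length = p.1.length := by
  obtain ⟨x, l, hx⟩ := vertex_form p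
  have := (level α l.length p (by rw [hx]; rfl)).1
  rw [this, hx]
  rfl

lemma deg_map {p : Vertex} {x y : Word} {l m : List Word} (hp : p.1 = x :: l)
    (hq : (α p).1 = y :: m) : deg y = deg x := by
  have h1 := ncard_nbr p hp
  have h2 := nbr_pres α p
  have h3 := ncard_nbr (α p) hq
  have hlen := len_map α p
  rw [hp, hq] at hlen
  have hlm : m.length = l.length := by simpa using hlen
  have hiff : m = [] ↔ l = [] := by
    rw [← List.length_eq_zero_iff, ← List.length_eq_zero_iff, hlm]
  rw [h2, h1] at h3
  by_cases hl : l = []
  · rw [if_pos hl, if_pos (hiff.2 hl)] at h3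
    omega
  · rw [if_neg hl, if_neg (fun h => hl (hiff.1 h))] at h3
    omega

open Classical in
/-- The portrait of an automorphism. -/
noncomputable def por (l : List Word) : Bool :=
  decide (IsPath l ∧ ∃ (k : ℕ) (p q : Vertex), p.1 = l ∧ l.head? = some (br k) ∧
    q.1 = (List.replicate k true ++ [true]) :: l ∧
    (α q).1 = (List.replicate k true ++ [false, false]) :: (α p).1)

lemma por_iff (l : List Word) : por α l = true ↔
    (IsPath l ∧ ∃ (k : ℕ) (p q : Vertex), p.1 = l ∧ l.head? = some (br k) ∧
    q.1 = (List.replicate k true ++ [true]) :: l ∧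
    (α q).1 = (List.replicate k true ++ [false, false]) :: (α p).1) := by
  classical
  unfold por
  rw [decide_eq_true_eq]

lemma por_branch (l : List Word) (h : por α l = true) : IsBranch l := by
  rw [por_iff] at h
  obtain ⟨h1, k, p, q, h2, h3, -⟩ := h
  exact ⟨h1, k, h3⟩

lemma br_inj {j k : ℕ} (h : br j = br k) : j = k := by
  have := congrArg List.length h
  simpa [br] using this

lemma act_por (n : ℕ) : ∀ p : Vertex, p.1.length = n + 1 → (α p).1 = act (por α) p.1 := by
  induction n with
  | zero =>
    intro p hp
    obtain ⟨x, l, hx⟩ := vertex_form p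
    have hl : l = [] := by
      rw [hx] at hp
      simpa using hp
    subst hl
    have hx0 : x = [] := by
      have := p.2
      rw [hx] at this
      exact this
    subst hx0
    have hlen := len_map α p
    obtain ⟨y, m, hy⟩ := vertex_form (α p)
    rw [hy, hp] at hlen
    have hm : m = [] := by simpa using hlen
    subst hm
    have hy0 : y = [] := by
      have := (α p).2
      rw [hy] at this
      exact this
    rw [hy, hx, hy0]
    rfl
  | succ n ih =>
    intro p hp
    obtain ⟨x', l, hx⟩ := vertex_form p
    rcases l with _ | ⟨x, l⟩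
    · exfalso
      rw [hx] at hp
      simp at hp
    have hpath := p.2
    rw [hx] at hpath
    set q : Vertex := ⟨x :: l, hpath.2⟩ with hq
    have hpq : p.1 = x' :: q.1 := hx
    have hqlen : q.1.length = n + 1 := by
      rw [hpq] at hp
      simpa using hp
    have h1 := ih q hqlen
    obtain ⟨y, m, h2, h3, h4⟩ := act_path (por_branch α) l x hpath.2
    have h1' : (α q).1 = y :: m := h1.trans h2
    -- images of the children of `q`
    have child : ∀ (c : Word), Cov x c → ∃ c', Cov y c' ∧ deg c' = deg c ∧
        ∀ r : Vertex, r.1 = c :: q.1 → (α r).1 = c' :: (α q).1 := by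
      intro c hc
      set r : Vertex := ⟨c :: x :: l, (covers_iff _ _).2 hc, hpath.2⟩ with hr
      obtain ⟨c', hc'⟩ := child_map α (p := r) (q := q) (y := c) rfl
      refine ⟨c', ?_, deg_map α (p := r) (x := c) (l := x :: l) rfl hc', ?_⟩
      · have := (α r).2
        rw [hc', h1'] at this
        exact (covers_iff _ _).1 this.1
      · intro r' hr'
        have : r' = r := Subtype.ext hr'
        rw [this]
        exact hc'
    have hcx : Cov x x' := (covers_iff _ _).1 hpath.1
    obtain ⟨y'', hy1, hy2, hy3⟩ := child x' hcx
    rw [hy3 p hpq, h1, hx, act_cons, h2]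
    congr 1
    simp only [List.head?_cons, ne_eq, Option.some.injEq]
    by_cases hyx : y = x
    · subst hyx
      rcases sib hcx hy1 hy2.symm with h5 | ⟨h5, k, hk⟩
      · -- `y'' = x'`
        by_cases hpor : por α (y :: l) = true
        · rw [if_pos (Or.inr hpor)]
          have hp' := hpor
          rw [por_iff] at hp'
          obtain ⟨-, k, p1, q1, e1, e2, e3, e4⟩ := hp'
          simp only [List.head?_cons, Option.some.injEq] at e2
          have ep1 : p1 = q := Subtype.ext e1
          subst ep1
          -- `q1 = 2^{k+1} :: q` is mapped to `2^k 11 :: α q`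
          rcases cov_br k x' (e2 ▸ hcx) with h6 | h6 | h6
          · -- `x' = 2^k 11`
            exfalso
            have : (α p).1 = (α q1).1 := by rw [hy3 p hpq, e4, ← h5, h6]
            have h7 : p = q1 := α.injective (Subtype.ext this)
            have h8 : p.1.head? = q1.1.head? := congrArg (fun v : Vertex => v.1.head?) h7
            rw [hx, e3, h6] at h8
            simp at h8
          · exfalso
            have hpq1 : p = q1 := Subtype.ext (by rw [hx, e3, h6])
            rw [← hpq1, hy3 p hpq, ← h5, h6] at e4
            have := (List.cons.inj e4).1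
            simp at this
          · rw [h6, h5]
        · rw [if_neg (by simp [hpor]), h5]
      · -- `y'' = toggle x'`, `x = 2^k 1`
        by_cases hpor : por α (y :: l) = true
        · rw [if_pos (Or.inr hpor), h5]
        · rw [if_neg (by simp [hpor]), h5]
          -- then `toggle x' = x'`
          rcases cov_br k x' (hk ▸ hcx) with h6 | h6 | h6
          · -- `x' = 2^k 11` is mapped to `2^{k+1}`
            exfalso
            have hc2 : Cov y (List.replicate k true ++ [true]) := hk ▸ cov_br_2 k
            obtain ⟨c', hc1', hc2', hc3'⟩ := child _ hc2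
            set r : Vertex := ⟨(List.replicate k true ++ [true]) :: y :: l,
              (covers_iff _ _).2 hc2, hpath.2⟩ with hr
            have h7 := hc3' r rfl
            rcases sib hc2 hc1' hc2'.symm with h8 | ⟨h8, -⟩
            · have : (α p).1 = (α r).1 := by
                rw [hy3 p hpq, h7, h5, h6, toggle_11, h8]
              have h9 : p = r := α.injective (Subtype.ext this)
              have h10 : p.1.head? = r.1.head? := congrArg (fun v : Vertex => v.1.head?) h9
              rw [hx] at h10
              change some x' = some (List.replicate k true ++ [true]) at h10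
              rw [h6] at h10
              simp at h10
            · apply hpor
              rw [por_iff]
              refine ⟨hpath.2, k, q, r, rfl, by simp [hk], rfl, ?_⟩
              rw [h7, h8, toggle_2]
          · exfalso
            apply hpor
            rw [por_iff]
            refine ⟨hpath.2, k, q, p, rfl, by simp [hk], by rw [hx, h6], ?_⟩
            rw [hy3 p hpq, h5, h6, toggle_2]
          · exact h6
    · rw [if_pos (Or.inl hyx)]
      have h5 := h4.resolve_left hyx
      have h6 : Cov y (toggle x') := by
        rw [h5] at hyx ⊢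
        exact cov_toggle hcx hyx
      rcases sib h6 hy1 ((deg_toggle x').trans hy2.symm) with h7 | ⟨-, k, hk⟩
      · exact h7.symm
      · exfalso
        apply hyx
        have : x = toggle y := by rw [h5, toggle_toggle]
        rw [this, hk, toggle_br]

end aut

/-- A portrait is determined by its action. -/
lemma portrait_ext {ε δ : Portrait} (h : ∀ p : Vertex, act ε.1 p.1 = act δ.1 p.1) : ε = δ := by
  apply Subtype.ext
  funext l
  by_cases hl : IsBranch l
  · obtain ⟨hp, k, hk⟩ := hl
    rcases l with _ | ⟨x, l⟩
    · exact hp.elim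
    simp only [List.head?_cons, Option.some.injEq] at hk
    have hk' : x = br k := hk
    subst hk'
    have h1 := h ⟨(List.replicate k true ++ [true]) :: br k :: l,
      (covers_iff _ _).2 (cov_br_2 k), hp⟩
    obtain ⟨y, m, h2, -, h3⟩ := act_path ε.2 l (br k) hp
    obtain ⟨y', m', h2', -, h3'⟩ := act_path δ.2 l (br k) hp
    rw [toggle_br, or_self_iff] at h3 h3'
    subst h3 h3'
    simp only at h1
    rw [act_cons, act_cons, h2, h2', toggle_2] at h1
    have h4 := (List.cons.inj h1).1
    simp only [List.head?_cons, ne_eq, not_true_eq_false, false_or] at h4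
    cases he : ε.1 (br k :: l) <;> cases hd : δ.1 (br k :: l)
    · rfl
    · rw [he, hd] at h4
      simp at h4
    · rw [he, hd] at h4
      simp at h4
    · rfl
  · have h1 : ε.1 l = false := by
      by_contra hne
      exact hl (ε.2 l (by simpa using hne))
    have h2 : δ.1 l = false := by
      by_contra hne
      exact hl (δ.2 l (by simpa using hne))
    rw [h1, h2]

lemma autOf_bij : Function.Bijective autOf := by
  constructor
  · intro ε δ h
    apply portrait_ext
    intro p
    rw [← autOf_apply, ← autOf_apply, h]
  · intro α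
    refine ⟨⟨por α, por_branch α⟩, ?_⟩
    apply RelIso.ext
    intro p
    apply Subtype.ext
    rw [autOf_apply]
    obtain ⟨x, l, hx⟩ := vertex_form p
    exact (act_por α l.length p (by rw [hx]; rfl)).symm

/-- **Result.** The automorphisms of `T` correspond bijectively to the portraits, that is, to the
arbitrary functions from the set of the vertices of `T` whose last word is `2^k 1` for some `k ≥ 0`
to `{0, 1}`: the automorphism with portrait `ε` maps the chain `(x₀, …, xₙ)` to the chain
`(y₀, …, yₙ)` with `y₀ = x₀` and `yᵢ₊₁ = toggle xᵢ₊₁` if `yᵢ ≠ xᵢ` or `ε (x₀, …, xᵢ) = 1` and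
`yᵢ₊₁ = xᵢ₊₁` otherwise. The composition of automorphisms corresponds to the operation
`(ε · δ) (p) = ε (δ p) + δ (p)` of portraits. -/
theorem result :
    ∃ Φ : (T ≃g T) ≃ Portrait,
      (∀ (α : T ≃g T) (p : Vertex), (α p).1 = act (Φ α).1 p.1) ∧
      (∀ (α β : T ≃g T) (p : Vertex),
        (Φ (β.trans α)).1 p.1 = xor ((Φ α).1 (β p).1) ((Φ β).1 p.1)) := by
  have hact : ∀ (α : T ≃g T) (p : Vertex),
      (α p).1 = act ((Equiv.ofBijective autOf autOf_bij).symm α).1 p.1 := by
    intro α p
    rw [← autOf_apply]
    congr 2
    exact ((Equiv.ofBijective autOf autOf_bij).apply_symm_apply α).symm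
  refine ⟨(Equiv.ofBijective autOf autOf_bij).symm, hact, ?_⟩
  set Φ := (Equiv.ofBijective autOf autOf_bij).symm with hΦ
  intro α β p
  obtain ⟨x, l, hx⟩ := vertex_form p
  have hp := p.2
  rw [hx] at hp
  obtain ⟨y, m, h1, h2, h3⟩ := act_path (Φ β).2 l x hp
  have hβ : (β p).1 = y :: m := by rw [hact, hx]; exact h1
  by_cases hb : ∃ k, x = br k
  · obtain ⟨k, rfl⟩ := hb
    rw [toggle_br, or_self_iff] at h3
    subst h3
    set r : Vertex := ⟨(List.replicate k true ++ [true]) :: br k :: l,
      (covers_iff _ _).2 (cov_br_2 k), hp⟩ with hr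
    have e1 := hact (β.trans α) r
    have e2 := hact β r
    have e3 := hact α (β r)
    have e4 : (β.trans α) r = α (β r) := rfl
    rw [e4, e3, e2] at e1
    have hr1 : r.1 = (List.replicate k true ++ [true]) :: br k :: l := rfl
    rw [hr1, act_cons] at e1
    change act (Φ β).1 (br k :: l) = _ at h1
    change act (Φ α).1 (_ :: act (Φ β).1 (br k :: l)) = _ at e1
    rw [h1, act_cons, act_cons] at e1
    obtain ⟨y2, m2, h4, -, h5⟩ := act_path (Φ α).2 m (br k) h2
    rw [toggle_br, or_self_iff] at h5
    subst h5
    obtain ⟨y3, m3, h6, -, h7⟩ := act_path (Φ (β.trans α)).2 l (br k) hp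
    rw [toggle_br, or_self_iff] at h7
    subst h7
    have e5 := (List.cons.inj e1).1
    rw [h4, h6] at e5
    simp only [List.head?_cons, ne_eq, not_true_eq_false, false_or] at e5
    rw [hβ, hx]
    cases ha : (Φ α).1 (br k :: m) <;> cases hb : (Φ β).1 (br k :: l) <;>
      cases hc : (Φ (β.trans α)).1 (br k :: l) <;>
      rw [ha, hb, hc] at e5 <;> simp [toggle_2, toggle_11] at e5 ⊢
  · have hno : ∀ (ε : Portrait) (z : Word) (l' : List Word), (¬ ∃ k, z = br k) →
        ε.1 (z :: l') = false := by
      intro ε z l' hz
      by_contra hne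
      obtain ⟨-, k, hk⟩ := ε.2 (z :: l') (by simpa using hne)
      simp only [List.head?_cons, Option.some.injEq] at hk
      exact hz ⟨k, hk⟩
    have hyb : ¬ ∃ k, y = br k := by
      rintro ⟨k, hk⟩
      rcases h3 with h3 | h3
      · exact hb ⟨k, h3 ▸ hk⟩
      · apply hb
        refine ⟨k, ?_⟩
        have : x = toggle y := by rw [h3, toggle_toggle]
        rw [this, hk, toggle_br]
    rw [hβ, hx, hno _ _ _ hb, hno _ _ _ hyb, hno _ _ _ hb]
    rfl

end Pool.Agent.Results.MP_ac28de_co.TreeAutomorphisms
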